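import Pool.Agent.Lib.MP_b735d7_co.MFin

/-!
The dimension of the random graph order with edge probability `c / n` lies almost surely between
`δ exp c / c ^ K` and `10 ^ 7 c ^ 2 exp c`.
-/

namespace Pool.Agent.Variants.MP_b735d7_co.ExpPoly

open Pool.Agent.Lib.MP_b735d7_co

theorem result : ∃ (K : ℕ) (δ : ℝ), 0 < δ ∧ ∀ c : ℝ, 1 ≤ c →
    Filter.Tendsto (fun n : ℕ => prob n c {G | δ * Real.exp c / c ^ K ≤ (orderDim G : ℝ) ∧
      (orderDim G : ℝ) ≤ 10 ^ 7 * c ^ 2 * Real.exp c}) Filter.atTop (nhds 1) :=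
  expPoly

end Pool.Agent.Variants.MP_b735d7_co.ExpPoly
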