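import Pool.Agent.Lib.MP_b735d7_co.GFin

/-!
The dimension of the random graph order with edge probability `c / n` lies almost surely between
`δ exp ((1 - ε) c)` and `10 ^ 7 c ^ 2 exp c`.
-/

namespace Pool.Agent.Variants.MP_b735d7_co.ExpRate

open Pool.Agent.Lib.MP_b735d7_co

theorem result : ∀ ε : ℝ, 0 < ε → ∃ δ : ℝ, 0 < δ ∧ ∀ c : ℝ, 1 ≤ c →
    Filter.Tendsto (fun n : ℕ => prob n c {G | δ * Real.exp ((1 - ε) * c) ≤ (orderDim G : ℝ) ∧
      (orderDim G : ℝ) ≤ 10 ^ 7 * c ^ 2 * Real.exp c}) Filter.atTop (nhds 1) :=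
  fun _ hε => expRate hε

end Pool.Agent.Variants.MP_b735d7_co.ExpRate
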